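import Pool.Agent.X114.FW.FW6

/-!
MP_dbb102_an, Q1 (is there a non-Pisot `β ∈ (1,2)` whose normalisation map has the finite word
property?). If `P_β` has the finite word property, then `β` is an algebraic integer and all its
other conjugates lie in the closed unit disc: only Salem numbers remain besides the Pisot numbers.

Idea: if `γ` is a conjugate with `|γ| > 1`, then `∑ a_n γ^{-n}` is a function `G` of
`∑ a_n β^{-n}`, with `G(x/β) = G(x)/γ` and `G((x+1)/β) = (G(x)+1)/γ`. Hence `G(y+δ) = G(y) + c`
for a small `δ = p(β)`, `c = p(γ)`, and also `G(y+βδ) = G(y) + γc`; following the rotation with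
the steps `+βδ`, `-δ` inside the domain and using that `G` is bounded gives `γ = β`.
-/

set_option autoImplicit false

namespace Pool.Agent.Results.MP_dbb102_an.PisotOrSalem

open Polynomial Pool.Agent.X114.FW

theorem result (β : ℝ) (h1 : 1 < β) (h2 : β < 2) (h : FiniteWordProperty β) :
    IsIntegral ℤ β ∧ ∀ γ : ℂ, aeval γ (minpoly ℚ β) = 0 → γ ≠ β → ‖γ‖ ≤ 1 :=
  main h1 h2 h

end Pool.Agent.Results.MP_dbb102_an.PisotOrSalem
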